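import Pool.Agent.Helper94.Area.Parseval

open MeasureTheory Complex Metric Set Filter Topology

namespace Pool.Agent.Helper94.Area

theorem hs_congr {f g : ℕ → ℂ} {a : ℂ} (h : ∀ n, f n = g n) (hg : HasSum g a) : HasSum f a := by
  rwa [show f = g from funext h]

theorem det_mul (w : ℂ) :
    ((ContinuousLinearMap.smulRight (1 : ℂ →L[ℂ] ℂ) w).restrictScalars ℝ).det = ‖w‖ ^ 2 := by
  have h1 : (((ContinuousLinearMap.smulRight (1 : ℂ →L[ℂ] ℂ) w).restrictScalars ℝ : ℂ →L[ℝ] ℂ)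
      : ℂ →ₗ[ℝ] ℂ) = Algebra.lmul ℝ ℂ w := by
    ext z
    simp [mul_comm]
  rw [ContinuousLinearMap.det, h1]
  have := Algebra.norm_complex_apply w
  rw [Algebra.norm_apply] at this
  rw [this, Complex.normSq_eq_norm_sq]

/-- Taylor coefficient at the origin -/
noncomputable def tc (k : ℂ → ℂ) (n : ℕ) : ℂ := ((n.factorial : ℂ))⁻¹ * iteratedDeriv n k 0

theorem tc_hasSum {k : ℂ → ℂ} (hk : DifferentiableOn ℂ k (ball 0 1)) {z : ℂ}
    (hz : z ∈ ball (0:ℂ) 1) : HasSum (fun n => tc k n * z ^ n) (k z) := by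
  have h := Complex.hasSum_taylorSeries_on_ball hk hz
  refine hs_congr (fun n => ?_) h
  simp only [sub_zero, smul_eq_mul, tc]
  ring

theorem tc_zero (k : ℂ → ℂ) : tc k 0 = k 0 := by simp [tc]

theorem tc_one (k : ℂ → ℂ) : tc k 1 = deriv k 0 := by simp [tc]

theorem tc_deriv (k : ℂ → ℂ) (n : ℕ) : tc (deriv k) n = ((n:ℂ) + 1) * tc k (n + 1) := by
  simp only [tc]
  rw [iteratedDeriv_succ', Nat.factorial_succ]
  have : ((n:ℂ) + 1) ≠ 0 := by exact_mod_cast Nat.succ_ne_zero n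
  have h2 : (n.factorial : ℂ) ≠ 0 := by exact_mod_cast Nat.factorial_ne_zero n
  push_cast
  field_simp

/-- the series of z k'(z) - k(z) -/
theorem hasSum_K {k : ℂ → ℂ} (hk : DifferentiableOn ℂ k (ball 0 1)) {z : ℂ}
    (hz : z ∈ ball (0:ℂ) 1) :
    HasSum (fun n : ℕ => ((n:ℂ) - 1) * tc k n * z ^ n) (z * deriv k z - k z) := by
  have hd : DifferentiableOn ℂ (deriv k) (ball 0 1) := hk.deriv isOpen_ball
  have h1 := tc_hasSum hd hz
  have h2 := h1.mul_left z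
  have h3 : HasSum (fun n : ℕ => ((n:ℂ)) * tc k n * z ^ n) (z * deriv k z) := by
    rw [← hasSum_nat_add_iff' 1]
    simp only [Finset.range_one, Finset.sum_singleton, Nat.cast_zero, zero_mul, sub_zero]
    refine hs_congr (fun n => ?_) h2
    rw [tc_deriv]
    push_cast
    ring
  refine hs_congr (fun n => ?_) (h3.sub (tc_hasSum hk hz))
  ring

theorem summable_norm_of_hasSum {c : ℕ → ℂ} {k : ℂ → ℂ}
    (hk : ∀ z ∈ ball (0:ℂ) 1, HasSum (fun n => c n * z ^ n) (k z)) {t : ℝ} (ht0 : 0 ≤ t)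
    (ht1 : t < 1) : Summable (fun n => ‖c n * (t:ℂ) ^ n‖) := by
  have : (t:ℂ) ∈ ball (0:ℂ) 1 := by
    simp [abs_of_nonneg ht0, ht1]
  exact (hk _ this).summable.norm

end Pool.Agent.Helper94.Area
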