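import Pool.Agent.Helper94.Area.Lower

open MeasureTheory Complex Metric Set Filter Topology

namespace Pool.Agent.Helper94.Area

/-- the integrand on circles -/
theorem circle_lower {k : ℂ → ℂ} (hk : DifferentiableOn ℂ k (ball 0 1)) {r : ℝ} (h0 : 0 < r)
    (h1 : r < 1) (N : ℕ) :
    2 * Real.pi * ∑ n ∈ Finset.range N, ((n:ℝ) - 1) ^ 2 * ‖tc k n‖ ^ 2 * r ^ (2 * n)
      ≤ ∫ θ in (-Real.pi)..Real.pi,
        ‖(r * exp (θ * I)) * deriv k (r * exp (θ * I)) - k (r * exp (θ * I))‖ ^ 2 := by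
  set K : ℂ → ℂ := fun z => z * deriv k z - k z with hK
  have hKs : ∀ z ∈ ball (0:ℂ) 1, HasSum (fun n : ℕ => (((n:ℂ) - 1) * tc k n) * z ^ n) (K z) :=
    fun z hz => hasSum_K hk hz
  have hKd : DifferentiableOn ℂ K (ball 0 1) := by
    have hd : DifferentiableOn ℂ (deriv k) (ball 0 1) := hk.deriv isOpen_ball
    exact (differentiableOn_id.mul hd).sub hk
  have hmem : ∀ θ : ℝ, (r * exp (θ * I) : ℂ) ∈ ball (0:ℂ) 1 := by
    intro θ
    rw [mem_ball_zero_iff, norm_mul, Complex.norm_exp_ofReal_mul_I, Complex.norm_real, mul_one,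
      Real.norm_eq_abs, abs_of_pos h0]
    exact h1
  have hsum := summable_norm_of_hasSum hKs h0.le h1
  have hu : ∀ θ : ℝ, HasSum (fun n : ℕ => ((((n:ℂ) - 1) * tc k n) * (r:ℂ) ^ n) *
      exp ((n:ℂ) * θ * I)) (K (r * exp (θ * I))) := by
    intro θ
    refine hs_congr (fun n => ?_) (hKs _ (hmem θ))
    rw [mul_pow, ← Complex.exp_nat_mul]
    ring_nf
  have hc : Continuous (fun θ : ℝ => K (r * exp (θ * I))) := by
    have hcont : ContinuousOn K (ball 0 1) := hKd.continuousOn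
    exact hcont.comp_continuous (by fun_prop) hmem
  have hP := parseval hsum hu hc
  have hle := sum_le_hasSum (Finset.range N) (fun n _ => by positivity) hP
  refine le_trans (le_of_eq ?_) hle
  rw [Finset.mul_sum]
  refine Finset.sum_congr rfl (fun n _ => ?_)
  rw [norm_mul, norm_mul, norm_pow, Complex.norm_real, Real.norm_eq_abs, abs_of_pos h0]
  have : ‖(n:ℂ) - 1‖ ^ 2 = ((n:ℝ) - 1) ^ 2 := by
    have : ((n:ℂ) - 1) = (((n:ℝ) - 1 : ℝ) : ℂ) := by push_cast; ring
    rw [this, Complex.norm_real, Real.norm_eq_abs, sq_abs]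
  rw [mul_pow, mul_pow, this]
  ring

theorem area_lower {k : ℂ → ℂ} (hk : DifferentiableOn ℂ k (ball 0 1))
    (hinj : InjOn (fun z => k z / z) (ball 0 1 \ {0})) {ρ : ℝ} (hρ0 : 0 < ρ) (hρ1 : ρ < 1)
    (N : ℕ) :
    ENNReal.ofReal (Real.pi * ∑ n ∈ Finset.range N,
      ((n:ℝ) - 1) * ‖tc k n‖ ^ 2 * (1 - ρ ^ (2 * (n:ℤ) - 2)))
      ≤ volume ((fun z => k z / z) '' {z : ℂ | ρ < ‖z‖ ∧ ‖z‖ < 1}) := by
  set F : ℂ → ℂ := fun z => k z / z with hF
  set F' : ℂ → ℂ := fun z => (z * deriv k z - k z) / z ^ 2 with hF'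
  set A : Set ℂ := {z : ℂ | ρ < ‖z‖ ∧ ‖z‖ < 1} with hA
  have hAo : IsOpen A := by
    have h1 : IsOpen {z : ℂ | ρ < ‖z‖} := isOpen_lt continuous_const continuous_norm
    have h2 : IsOpen {z : ℂ | ‖z‖ < 1} := isOpen_lt continuous_norm continuous_const
    exact h1.inter h2
  have hAm : MeasurableSet A := hAo.measurableSet
  have hAsub : A ⊆ ball 0 1 \ {0} := by
    intro z hz
    refine ⟨by simpa using hz.2, ?_⟩
    intro h0
    have : z = 0 := h0
    rw [this] at hz
    have := hz.1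
    simp at this
    linarith
  have hd : ∀ z ∈ A, HasDerivAt F (F' z) z := by
    intro z hz
    have hz' := hAsub hz
    have hz0 : z ≠ 0 := hz'.2
    have h1 : HasDerivAt k (deriv k z) z :=
      (hk.differentiableAt (isOpen_ball.mem_nhds hz'.1)).hasDerivAt
    have h2 : HasDerivAt (fun y => k y / y) ((deriv k z * z - k z * 1) / z ^ 2) z :=
      h1.div (hasDerivAt_id z) hz0
    refine h2.congr_deriv ?_
    simp only [hF']
    ring
  have hvol : (∫⁻ z in A, ENNReal.ofReal (‖F' z‖ ^ 2)) = volume (F '' A) := by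
    have h := lintegral_abs_det_fderiv_eq_addHaar_image volume hAm (f := F)
      (f' := fun z => (ContinuousLinearMap.smulRight (1 : ℂ →L[ℂ] ℂ) (F' z)).restrictScalars ℝ)
      (fun z hz => ((hd z hz).hasFDerivAt.restrictScalars ℝ).hasFDerivWithinAt)
      (hinj.mono hAsub)
    rw [← h]
    refine lintegral_congr (fun z => ?_)
    rw [det_mul, abs_of_nonneg (by positivity)]
  rw [← hvol, ← lintegral_indicator hAm, ← Complex.lintegral_comp_polarCoord_symm]
  -- restrict to the product set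
  set T : Set (ℝ × ℝ) := Ioo ρ 1 ×ˢ Ioo (-Real.pi) Real.pi with hT
  have hTm : MeasurableSet T := measurableSet_Ioo.prod measurableSet_Ioo
  have hTsub : T ⊆ polarCoord.target := by
    rintro ⟨r, θ⟩ ⟨h1, h2⟩
    exact ⟨hρ0.trans h1.1, h2⟩
  refine le_trans ?_ (lintegral_mono_set hTsub)
  have hTA : ∀ p ∈ T, Complex.polarCoord.symm p ∈ A := by
    rintro ⟨r, θ⟩ ⟨h1, h2⟩
    have h3 : ‖Complex.polarCoord.symm (r, θ)‖ = r := by
      rw [Complex.norm_polarCoord_symm]
      exact abs_of_pos (hρ0.trans h1.1)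
    exact ⟨by rw [h3]; exact h1.1, by rw [h3]; exact h1.2⟩
  have hcong : ∫⁻ p in T, ENNReal.ofReal p.1 •
      A.indicator (fun z => ENNReal.ofReal (‖F' z‖ ^ 2)) (Complex.polarCoord.symm p)
      = ∫⁻ p in T, ENNReal.ofReal (p.1 * ‖F' (p.1 * exp (p.2 * I))‖ ^ 2) := by
    refine setLIntegral_congr_fun hTm (fun p hp => ?_)
    rw [indicator_of_mem (hTA p hp), smul_eq_mul, ← ENNReal.ofReal_mul (hρ0.trans hp.1.1).le]
    congr 3
    rw [Complex.polarCoord_symm_apply, Complex.exp_mul_I]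
    simp
  rw [hcong]
  have hF'c : ContinuousOn F' (ball 0 1 \ {0}) := by
    have hdk : DifferentiableOn ℂ (deriv k) (ball 0 1) := hk.deriv isOpen_ball
    have h1 : ContinuousOn (fun z => z * deriv k z - k z) (ball 0 1 \ {0}) :=
      ((continuousOn_id.mul hdk.continuousOn).sub hk.continuousOn).mono sdiff_subset
    refine h1.div (by fun_prop) (fun z hz => pow_ne_zero _ hz.2)
  have hTc : ContinuousOn (fun p : ℝ × ℝ => p.1 * ‖F' (p.1 * exp (p.2 * I))‖ ^ 2) T := by
    refine continuousOn_fst.mul (ContinuousOn.pow (ContinuousOn.norm ?_) 2)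
    refine hF'c.comp (by fun_prop) (fun p hp => ?_)
    have := hAsub (hTA p hp)
    rwa [Complex.polarCoord_symm_apply, Complex.ofReal_cos, Complex.ofReal_sin,
      ← Complex.exp_mul_I] at this
  have hvp : (volume : Measure (ℝ × ℝ)).restrict T
      = ((volume : Measure ℝ).restrict (Ioo ρ 1)).prod
        ((volume : Measure ℝ).restrict (Ioo (-Real.pi) Real.pi)) := by
    rw [Measure.prod_restrict, ← Measure.volume_eq_prod]
  have hae : AEMeasurable (fun p : ℝ × ℝ => ENNReal.ofReal (p.1 * ‖F' (p.1 * exp (p.2 * I))‖ ^ 2))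
      (((volume : Measure ℝ).restrict (Ioo ρ 1)).prod
        ((volume : Measure ℝ).restrict (Ioo (-Real.pi) Real.pi))) := by
    rw [← hvp]
    exact (hTc.aemeasurable hTm).ennreal_ofReal
  rw [hvp, lintegral_prod _ hae]
  -- inner integrals
  have hinner : ∀ r ∈ Ioo ρ 1, ENNReal.ofReal (2 * Real.pi * ∑ n ∈ Finset.range N,
      ((n:ℝ) - 1) ^ 2 * ‖tc k n‖ ^ 2 * r ^ (2 * (n:ℤ) - 3))
      ≤ ∫⁻ θ in Ioo (-Real.pi) Real.pi, ENNReal.ofReal (r * ‖F' (r * exp (θ * I))‖ ^ 2) := by
    intro r hr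
    have hr0 : 0 < r := hρ0.trans hr.1
    have hcts : Continuous (fun θ : ℝ => r * ‖F' (r * exp (θ * I))‖ ^ 2) := by
      refine continuous_const.mul (Continuous.pow (Continuous.norm ?_) 2)
      refine hF'c.comp_continuous (by fun_prop) (fun θ => ?_)
      refine ⟨?_, ?_⟩
      · rw [mem_ball_zero_iff, norm_mul, Complex.norm_exp_ofReal_mul_I, Complex.norm_real, mul_one,
          Real.norm_eq_abs, abs_of_pos hr0]
        exact hr.2
      · simp [hr0.ne']
    have hint : IntegrableOn (fun θ : ℝ => r * ‖F' (r * exp (θ * I))‖ ^ 2)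
        (Ioo (-Real.pi) Real.pi) :=
      (hcts.integrableOn_Icc (a := -Real.pi) (b := Real.pi)).mono_set Ioo_subset_Icc_self
    rw [← ofReal_integral_eq_lintegral_ofReal hint (ae_of_all _ (fun θ => by positivity))]
    refine ENNReal.ofReal_le_ofReal ?_
    rw [← integral_Ioc_eq_integral_Ioo,
      ← intervalIntegral.integral_of_le (by linarith [Real.pi_pos])]
    have hcl := circle_lower hk hr0 hr.2 N
    have heq : ∀ θ : ℝ, r * ‖F' (r * exp (θ * I))‖ ^ 2 = r⁻¹ ^ 3 *
        ‖(r * exp (θ * I)) * deriv k (r * exp (θ * I)) - k (r * exp (θ * I))‖ ^ 2 := by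
      intro θ
      simp only [hF']
      rw [norm_div, norm_pow, norm_mul, Complex.norm_exp_ofReal_mul_I, Complex.norm_real, mul_one,
        Real.norm_eq_abs, abs_of_pos hr0, div_pow]
      field_simp
    simp_rw [heq]
    rw [intervalIntegral.integral_const_mul]
    refine le_trans (le_of_eq ?_) (mul_le_mul_of_nonneg_left hcl (by positivity))
    rw [mul_left_comm]
    congr 1
    rw [Finset.mul_sum]
    refine Finset.sum_congr rfl (fun n _ => ?_)
    have : r ^ (2 * (n:ℤ) - 3) = r⁻¹ ^ 3 * r ^ (2 * n) := by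
      rw [zpow_sub₀ hr0.ne', inv_pow]
      norm_cast
      rw [div_eq_mul_inv, mul_comm]
    rw [this]
    ring
  refine le_trans ?_ (setLIntegral_mono' measurableSet_Ioo hinner)
  -- outer integral
  have hcont : ContinuousOn (fun r : ℝ => 2 * Real.pi * ∑ n ∈ Finset.range N,
      ((n:ℝ) - 1) ^ 2 * ‖tc k n‖ ^ 2 * r ^ (2 * (n:ℤ) - 3)) (Icc ρ 1) := by
    refine continuousOn_const.mul (continuousOn_finsetSum _ (fun n _ => ?_))
    refine continuousOn_const.mul (fun r hr => ?_)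
    exact (continuousAt_zpow₀ r _ (Or.inl (hρ0.trans_le hr.1).ne')).continuousWithinAt
  have hint : IntegrableOn (fun r : ℝ => 2 * Real.pi * ∑ n ∈ Finset.range N,
      ((n:ℝ) - 1) ^ 2 * ‖tc k n‖ ^ 2 * r ^ (2 * (n:ℤ) - 3)) (Ioo ρ 1) :=
    (hcont.integrableOn_Icc).mono_set Ioo_subset_Icc_self
  rw [← ofReal_integral_eq_lintegral_ofReal hint]
  swap
  · refine (ae_restrict_iff' measurableSet_Ioo).mpr (ae_of_all _ (fun r hr => ?_))
    have hr0 : 0 < r := hρ0.trans hr.1
    positivity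
  refine ENNReal.ofReal_le_ofReal (le_of_eq ?_)
  rw [← integral_Ioc_eq_integral_Ioo, ← intervalIntegral.integral_of_le hρ1.le,
    intervalIntegral.integral_const_mul, intervalIntegral.integral_finsetSum]
  · rw [mul_comm 2 Real.pi, mul_assoc]
    congr 1
    rw [Finset.mul_sum]
    refine Finset.sum_congr rfl (fun n _ => ?_)
    rw [intervalIntegral.integral_const_mul]
    by_cases hn : n = 1
    · subst hn; simp
    · have hne : (2 * (n:ℤ) - 3) ≠ -1 := by omega
      rw [integral_zpow (Or.inr ⟨hne, ?_⟩)]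
      · have h1 : (n:ℝ) - 1 ≠ 0 := by
          intro h
          apply hn
          have : (n:ℝ) = 1 := by linarith
          exact_mod_cast this
        have h2 : ((2 * (n:ℤ) - 3 : ℤ) : ℝ) + 1 = 2 * ((n:ℝ) - 1) := by push_cast; ring
        rw [h2, show (2 * (n:ℤ) - 3 + 1 : ℤ) = 2 * (n:ℤ) - 2 by ring, one_zpow]
        field_simp
      · rw [uIcc_of_le hρ1.le]
        intro h
        linarith [h.1]
  · intro n _
    refine ContinuousOn.intervalIntegrable ?_
    rw [uIcc_of_le hρ1.le]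
    refine continuousOn_const.mul (fun r hr => ?_)
    exact (continuousAt_zpow₀ r _ (Or.inl (hρ0.trans_le hr.1).ne')).continuousWithinAt

end Pool.Agent.Helper94.Area
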