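import Mathlib

open MeasureTheory Complex Metric Set Filter Topology

namespace Pool.Agent.Helper94.Area

theorem int_exp (k : ℤ) :
    ∫ θ in (-Real.pi)..Real.pi, exp ((k:ℂ) * θ * I) = if k = 0 then (2 * Real.pi : ℂ) else 0 := by
  split_ifs with h
  · subst h
    simp
    ring
  · have hk : ((k:ℂ) * I) ≠ 0 := by
      simp [h]
    have h1 : ∀ θ : ℝ, exp ((k:ℂ) * θ * I) = exp (((k:ℂ) * I) * θ) := by
      intro θ; congr 1; ring
    simp_rw [h1]
    rw [integral_exp_mul_complex hk]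
    have h2 : exp (((k:ℂ) * I) * (Real.pi:ℝ)) = exp (((k:ℂ) * I) * ((-Real.pi:ℝ):ℂ)) := by
      rw [Complex.exp_eq_exp_iff_exists_int]
      refine ⟨k, ?_⟩
      push_cast
      ring
    rw [h2, sub_self, zero_div]

/-- the restricted norm bound used for swapping -/
theorem summable_restrict {d : ℕ → ℂ} (hd : Summable (fun n => ‖d n‖))
    (e : ℕ → C(ℝ, ℂ)) (he : ∀ n θ, ‖e n θ‖ ≤ ‖d n‖) (a b : ℝ) :
    Summable fun i : ℕ => ‖(e i).restrict (⟨uIcc a b, isCompact_uIcc⟩ : TopologicalSpace.Compacts ℝ)‖ := by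
  refine Summable.of_nonneg_of_le (fun _ => norm_nonneg _) (fun n => ?_) hd
  rw [ContinuousMap.norm_le _ (norm_nonneg _)]
  intro x
  exact he n x

/-- coefficient extraction for an absolutely convergent Fourier series -/
theorem coeff_extract {d : ℕ → ℂ} (hd : Summable (fun n => ‖d n‖)) {u : ℝ → ℂ}
    (hu : ∀ θ : ℝ, HasSum (fun n : ℕ => d n * exp ((n:ℂ) * θ * I)) (u θ)) (m : ℕ) :
    ∫ θ in (-Real.pi)..Real.pi, exp (-((m:ℂ) * θ * I)) * u θ = 2 * Real.pi * d m := by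
  let e : ℕ → C(ℝ, ℂ) := fun n =>
    ⟨fun θ => exp (-((m:ℂ) * θ * I)) * (d n * exp ((n:ℂ) * θ * I)), by fun_prop⟩
  have he : ∀ n θ, ‖e n θ‖ ≤ ‖d n‖ := by
    intro n θ
    change ‖exp (-((m:ℂ) * θ * I)) * (d n * exp ((n:ℂ) * θ * I))‖ ≤ _
    rw [norm_mul, norm_mul, Complex.norm_exp, Complex.norm_exp]
    simp
  have hs := intervalIntegral.hasSum_intervalIntegral_of_summable_norm
    (summable_restrict hd e he (-Real.pi) Real.pi)
  have h1 : ∀ θ : ℝ, ∑' n, e n θ = exp (-((m:ℂ) * θ * I)) * u θ := by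
    intro θ
    exact ((hu θ).mul_left _).tsum_eq
  simp_rw [h1] at hs
  have h2 : ∀ n, (∫ θ in (-Real.pi)..Real.pi, e n θ) = if n = m then 2 * Real.pi * d m else 0 := by
    intro n
    have h3 : ∀ θ : ℝ, e n θ = d n * exp ((((n:ℤ) - (m:ℤ) : ℤ) : ℂ) * θ * I) := by
      intro θ
      change exp (-((m:ℂ) * θ * I)) * (d n * exp ((n:ℂ) * θ * I)) = _
      have : exp ((((n:ℤ) - (m:ℤ) : ℤ) : ℂ) * θ * I)
          = exp (-((m:ℂ) * θ * I)) * exp ((n:ℂ) * θ * I) := by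
        rw [← Complex.exp_add]
        congr 1
        push_cast
        ring
      rw [this]; ring
    simp_rw [h3]
    rw [intervalIntegral.integral_const_mul, int_exp]
    by_cases hnm : n = m
    · subst hnm; simp; ring
    · have : ((n:ℤ) - (m:ℤ)) ≠ 0 := by omega
      simp [this, hnm]
  simp_rw [h2] at hs
  have h4 := hasSum_ite_eq m (2 * Real.pi * d m)
  exact hs.unique h4

/-- Parseval for an absolutely convergent power-type Fourier series -/
theorem parseval {d : ℕ → ℂ} (hd : Summable (fun n => ‖d n‖)) {u : ℝ → ℂ}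
    (hu : ∀ θ : ℝ, HasSum (fun n : ℕ => d n * exp ((n:ℂ) * θ * I)) (u θ)) (hc : Continuous u) :
    HasSum (fun n => 2 * Real.pi * ‖d n‖ ^ 2) (∫ θ in (-Real.pi)..Real.pi, ‖u θ‖ ^ 2) := by
  obtain ⟨B, hB⟩ : ∃ B, ∀ θ ∈ uIcc (-Real.pi) Real.pi, ‖u θ‖ ≤ B :=
    isCompact_uIcc.exists_bound_of_continuousOn hc.continuousOn
  have hB' : ∀ θ, ‖u θ‖ ≤ ∑' n, ‖d n‖ := by
    intro θ
    rw [← (hu θ).tsum_eq]
    refine (norm_tsum_le_tsum_norm ?_).trans (le_of_eq ?_)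
    · refine hd.congr (fun n => ?_)
      rw [norm_mul, Complex.norm_exp]; simp
    · refine tsum_congr (fun n => ?_)
      rw [norm_mul, Complex.norm_exp]; simp
  set B := ∑' n, ‖d n‖ with hBdef
  let e : ℕ → C(ℝ, ℂ) := fun n =>
    ⟨fun θ => (starRingEnd ℂ) (u θ) * (d n * exp ((n:ℂ) * θ * I)), by fun_prop⟩
  have hd' : Summable (fun n => ‖(B:ℂ) * d n‖) := by
    simp_rw [norm_mul]; exact hd.mul_left _
  have hBnn : 0 ≤ B := tsum_nonneg (fun n => norm_nonneg _)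
  have he : ∀ n θ, ‖e n θ‖ ≤ ‖(B:ℂ) * d n‖ := by
    intro n θ
    change ‖(starRingEnd ℂ) (u θ) * (d n * exp ((n:ℂ) * θ * I))‖ ≤ _
    rw [norm_mul, norm_mul, norm_mul, Complex.norm_exp]
    have h1 : ‖(B:ℂ)‖ = B := by rw [Complex.norm_real]; exact abs_of_nonneg hBnn
    rw [h1, RCLike.norm_conj]
    have := hB' θ
    simp
    gcongr
  have hs := intervalIntegral.hasSum_intervalIntegral_of_summable_norm
    (summable_restrict hd' e he (-Real.pi) Real.pi)
  have h1 : ∀ θ : ℝ, ∑' n, e n θ = ((‖u θ‖ ^ 2 : ℝ) : ℂ) := by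
    intro θ
    have h2 := ((hu θ).mul_left ((starRingEnd ℂ) (u θ))).tsum_eq
    have h3 : (starRingEnd ℂ) (u θ) * u θ = ((‖u θ‖ ^ 2 : ℝ) : ℂ) := by
      rw [mul_comm, Complex.mul_conj, Complex.normSq_eq_norm_sq]
    rw [← h3, ← h2]
    rfl
  simp_rw [h1] at hs
  have h2 : ∀ n, (∫ θ in (-Real.pi)..Real.pi, e n θ) = ((2 * Real.pi * ‖d n‖ ^ 2 : ℝ) : ℂ) := by
    intro n
    have h3 : ∀ θ : ℝ, e n θ = d n * (starRingEnd ℂ) (exp (-((n:ℂ) * θ * I)) * u θ) := by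
      intro θ
      change (starRingEnd ℂ) (u θ) * (d n * exp ((n:ℂ) * θ * I)) = _
      rw [map_mul, ← Complex.exp_conj]
      have : (starRingEnd ℂ) (-((n:ℂ) * θ * I)) = (n:ℂ) * θ * I := by
        simp
      rw [this]; ring
    simp_rw [h3]
    rw [intervalIntegral.integral_const_mul]
    have h5 : (∫ θ in (-Real.pi)..Real.pi, (starRingEnd ℂ) (exp (-((n:ℂ) * θ * I)) * u θ))
        = (starRingEnd ℂ) (∫ θ in (-Real.pi)..Real.pi, (exp (-((n:ℂ) * θ * I)) * u θ)) := by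
      rw [intervalIntegral.integral_of_le (by linarith [Real.pi_pos]),
        intervalIntegral.integral_of_le (by linarith [Real.pi_pos]), integral_conj]
    rw [h5, coeff_extract hd hu n, map_mul, map_mul, Complex.conj_ofReal,
      show (starRingEnd ℂ) 2 = (2:ℂ) from Complex.conj_ofNat 2]
    rw [show d n * (2 * (Real.pi:ℂ) * (starRingEnd ℂ) (d n))
      = 2 * Real.pi * (d n * (starRingEnd ℂ) (d n)) by ring, Complex.mul_conj,
      Complex.normSq_eq_norm_sq]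
    push_cast
    ring
  simp_rw [h2] at hs
  have h6 : (∫ θ in (-Real.pi)..Real.pi, ((‖u θ‖ ^ 2 : ℝ) : ℂ))
      = ((∫ θ in (-Real.pi)..Real.pi, ‖u θ‖ ^ 2 : ℝ) : ℂ) := by
    exact intervalIntegral.integral_ofReal
  rw [h6] at hs
  exact_mod_cast hs

end Pool.Agent.Helper94.Area
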