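import Pool.Agent.Helper94.Area.Upper

open MeasureTheory Complex Metric Set Filter Topology

namespace Pool.Agent.Helper94.Area

/-- The area theorem for k(z)/z with k(0) = 1, k'(0) = 0. -/
theorem area_theorem {k : ℂ → ℂ} (hk : DifferentiableOn ℂ k (ball 0 1))
    (hne : ∀ z ∈ ball (0:ℂ) 1, k z ≠ 0) (h0 : k 0 = 1) (h1 : deriv k 0 = 0)
    (hinj : InjOn (fun z => z / k z) (ball 0 1)) (N : ℕ) :
    ∑ n ∈ Finset.range N, ((n:ℝ) + 1) * ‖tc k (n + 2)‖ ^ 2 ≤ 1 := by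
  have hinj' : InjOn (fun z => k z / z) (ball 0 1 \ {0}) := by
    intro z hz w hw hzw
    have hkz := hne z hz.1
    have hkw := hne w hw.1
    have hz0 : z ≠ 0 := hz.2
    have hw0 : w ≠ 0 := hw.2
    refine hinj hz.1 hw.1 ?_
    simp only at hzw ⊢
    rw [← inv_div, ← inv_div (k w), hzw]
  obtain ⟨C, hC, hsub⟩ := image_subset hk hne h0 h1 hinj
  set b := ‖tc k 2‖ with hb
  -- inequality for small ρ
  have key : ∀ᶠ ρ in 𝓝[>] (0:ℝ),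
      ∑ n ∈ Finset.range N, ((n:ℝ) + 1) * ‖tc k (n + 2)‖ ^ 2 * (1 - ρ ^ (2 * n + 2))
      ≤ 1 + (2 * C * ρ + C ^ 2 * ρ ^ 4 + b ^ 2 * ρ ^ 2) / (1 - b ^ 2 * ρ ^ 4) := by
    have hev : ∀ᶠ ρ in 𝓝[>] (0:ℝ), ρ < 1 / 2 := by
      filter_upwards [Ioo_mem_nhdsGT (show (0:ℝ) < 1/2 by norm_num)] with ρ hρ using hρ.2
    have hev2 : ∀ᶠ ρ in 𝓝[>] (0:ℝ), b * ρ ^ 2 < 1 := by
      have : Tendsto (fun ρ : ℝ => b * ρ ^ 2) (𝓝[>] 0) (𝓝 (b * 0 ^ 2)) :=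
        (Continuous.tendsto (by fun_prop) 0).mono_left nhdsWithin_le_nhds
      rw [show b * (0:ℝ) ^ 2 = 0 by ring] at this
      exact this.eventually (gt_mem_nhds one_pos)
    filter_upwards [hev, hev2, self_mem_nhdsWithin] with ρ hρ2 hbρ hρ
    have hρ0 : 0 < ρ := hρ
    have hlow := area_lower hk hinj' hρ0 (by linarith) (N + 2)
    have ha : ‖tc k 2 * (ρ:ℂ) ^ 2‖ < 1 := by
      rw [norm_mul, norm_pow, Complex.norm_real, Real.norm_eq_abs, abs_of_pos hρ0]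
      exact hbρ
    have hup := measure_mono (μ := volume) (hsub ρ hρ0 hρ2)
    have hR : 0 ≤ ρ⁻¹ + C * ρ ^ 2 := by positivity
    rw [volume_Mmap ha hR] at hup
    have hcomb := hlow.trans hup
    have ha2 : ‖tc k 2 * (ρ:ℂ) ^ 2‖ ^ 2 = b ^ 2 * ρ ^ 4 := by
      rw [norm_mul, norm_pow, Complex.norm_real, Real.norm_eq_abs, abs_of_pos hρ0]
      ring
    have hD : 0 < 1 - b ^ 2 * ρ ^ 4 := by
      rw [← ha2]
      nlinarith [norm_nonneg (tc k 2 * (ρ:ℂ) ^ 2)]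
    rw [ha2, ENNReal.ofReal_le_ofReal_iff (by positivity)] at hcomb
    have h3 := le_of_mul_le_mul_left hcomb Real.pi_pos
    have hrange : ∑ n ∈ Finset.range (N + 2), ((n:ℝ) - 1) * ‖tc k n‖ ^ 2 *
        (1 - ρ ^ (2 * (n:ℤ) - 2)) = (ρ⁻¹ ^ 2 - 1) +
        ∑ n ∈ Finset.range N, ((n:ℝ) + 1) * ‖tc k (n + 2)‖ ^ 2 * (1 - ρ ^ (2 * n + 2)) := by
      rw [Finset.sum_range_succ', Finset.sum_range_succ']
      have e0 : ((0:ℕ):ℝ) - 1 = -1 := by norm_num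
      have e1 : ρ ^ (2 * ((0:ℕ):ℤ) - 2) = ρ⁻¹ ^ 2 := by
        rw [show (2 * ((0:ℕ):ℤ) - 2) = -((2:ℕ):ℤ) by norm_num, zpow_neg, zpow_natCast, inv_pow]
      rw [tc_zero, h0, e0, e1]
      have e2 : (((0 + 1 : ℕ):ℝ) - 1) = 0 := by norm_num
      rw [e2]
      have e3 : ∀ n ∈ Finset.range N, (((n + 1 + 1 : ℕ) : ℝ) - 1) * ‖tc k (n + 1 + 1)‖ ^ 2 *
          (1 - ρ ^ (2 * ((n + 1 + 1 : ℕ) : ℤ) - 2))
          = ((n:ℝ) + 1) * ‖tc k (n + 2)‖ ^ 2 * (1 - ρ ^ (2 * n + 2)) := by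
        intro n _
        have : ρ ^ (2 * ((n + 1 + 1 : ℕ) : ℤ) - 2) = ρ ^ (2 * n + 2) := by
          rw [show (2 * ((n + 1 + 1 : ℕ) : ℤ) - 2) = ((2 * n + 2 : ℕ) : ℤ) by push_cast; ring,
            zpow_natCast]
        rw [this]
        push_cast
        ring
      rw [Finset.sum_congr rfl e3]
      norm_num
      ring
    rw [hrange] at h3
    have h4 : (ρ⁻¹ + C * ρ ^ 2) ^ 2 / (1 - b ^ 2 * ρ ^ 4)
        = ρ⁻¹ ^ 2 + (2 * C * ρ + C ^ 2 * ρ ^ 4 + b ^ 2 * ρ ^ 2) / (1 - b ^ 2 * ρ ^ 4) := by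
      have : ρ⁻¹ * ρ = 1 := inv_mul_cancel₀ hρ0.ne'
      rw [div_eq_iff hD.ne', add_mul, div_mul_cancel₀ _ hD.ne']
      field_simp
      ring
    rw [h4] at h3
    linarith
  have hL : Tendsto (fun ρ : ℝ => ∑ n ∈ Finset.range N,
      ((n:ℝ) + 1) * ‖tc k (n + 2)‖ ^ 2 * (1 - ρ ^ (2 * n + 2))) (𝓝[>] 0)
      (𝓝 (∑ n ∈ Finset.range N, ((n:ℝ) + 1) * ‖tc k (n + 2)‖ ^ 2)) := by
    refine Tendsto.mono_left ?_ nhdsWithin_le_nhds
    refine tendsto_finsetSum _ (fun n _ => ?_)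
    have : Tendsto (fun ρ : ℝ => ((n:ℝ) + 1) * ‖tc k (n + 2)‖ ^ 2 * (1 - ρ ^ (2 * n + 2))) (𝓝 0)
      (𝓝 (((n:ℝ) + 1) * ‖tc k (n + 2)‖ ^ 2 * (1 - 0 ^ (2 * n + 2)))) :=
      Continuous.tendsto (by fun_prop) 0
    simpa using this
  have hRt : Tendsto (fun ρ : ℝ => 1 + (2 * C * ρ + C ^ 2 * ρ ^ 4 + b ^ 2 * ρ ^ 2) /
      (1 - b ^ 2 * ρ ^ 4)) (𝓝[>] 0) (𝓝 1) := by
    refine Tendsto.mono_left ?_ nhdsWithin_le_nhds
    have h1 : Tendsto (fun ρ : ℝ => (2 * C * ρ + C ^ 2 * ρ ^ 4 + b ^ 2 * ρ ^ 2)) (𝓝 0)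
        (𝓝 (2 * C * 0 + C ^ 2 * 0 ^ 4 + b ^ 2 * 0 ^ 2)) := Continuous.tendsto (by fun_prop) 0
    have h2 : Tendsto (fun ρ : ℝ => (1 - b ^ 2 * ρ ^ 4)) (𝓝 0) (𝓝 (1 - b ^ 2 * 0 ^ 4)) :=
      Continuous.tendsto (by fun_prop) 0
    have h3 := (h1.div h2 (by norm_num)).const_add 1
    rw [show 1 + (2 * C * 0 + C ^ 2 * 0 ^ 4 + b ^ 2 * 0 ^ 2) / (1 - b ^ 2 * 0 ^ 4) = (1:ℝ) by
      norm_num] at h3
    exact h3
  exact le_of_tendsto_of_tendsto hL hRt key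

theorem coeff_unique {c c' : ℕ → ℂ} {k : ℂ → ℂ}
    (hc : ∀ z ∈ ball (0:ℂ) 1, HasSum (fun n => c n * z ^ n) (k z))
    (hc' : ∀ z ∈ ball (0:ℂ) 1, HasSum (fun n => c' n * z ^ n) (k z)) (n : ℕ) : c n = c' n := by
  have hmem : ∀ θ : ℝ, (((1/2:ℝ):ℂ) * exp (θ * I) : ℂ) ∈ ball (0:ℂ) 1 := by
    intro θ
    rw [mem_ball_zero_iff, norm_mul, Complex.norm_exp_ofReal_mul_I, Complex.norm_real, mul_one,
      Real.norm_eq_abs]
    norm_num
  have aux : ∀ d : ℕ → ℂ, (∀ z ∈ ball (0:ℂ) 1, HasSum (fun n => d n * z ^ n) (k z)) →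
      ∫ θ in (-Real.pi)..Real.pi, exp (-((n:ℂ) * θ * I)) * k (((1/2:ℝ):ℂ) * exp (θ * I))
        = 2 * Real.pi * (d n * ((1/2:ℝ):ℂ) ^ n) := by
    intro d hd
    have hs := summable_norm_of_hasSum hd (t := 1/2) (by norm_num) (by norm_num)
    refine coeff_extract hs (u := fun θ => k (((1/2:ℝ):ℂ) * exp (θ * I))) ?_ n
    intro θ
    refine hs_congr (fun n => ?_) (hd _ (hmem θ))
    rw [mul_pow, ← Complex.exp_nat_mul]
    ring_nf
  have h1 := (aux c hc).symm.trans (aux c' hc')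
  have h2 : (2 * Real.pi : ℂ) ≠ 0 := by
    simp [Real.pi_ne_zero]
  have h3 := mul_left_cancel₀ h2 h1
  have h4 : (((1/2:ℝ):ℂ)) ^ n ≠ 0 := by
    apply pow_ne_zero; norm_num
  exact mul_right_cancel₀ h4 h3

theorem tc_sq {h : ℂ → ℂ} (hh : DifferentiableOn ℂ h (ball 0 1)) (j : ℕ) :
    tc (fun z => h (z ^ 2)) (2 * j) = tc h j := by
  have hsq : ∀ z ∈ ball (0:ℂ) 1, z ^ 2 ∈ ball (0:ℂ) 1 := by
    intro z hz
    rw [mem_ball_zero_iff] at hz ⊢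
    rw [norm_pow]
    exact pow_lt_one₀ (norm_nonneg _) hz (by norm_num)
  have hkd : DifferentiableOn ℂ (fun z => h (z ^ 2)) (ball 0 1) :=
    hh.comp (by fun_prop) hsq
  have h1 : ∀ z ∈ ball (0:ℂ) 1, HasSum (fun n : ℕ => (if Even n then tc h (n / 2) else 0) * z ^ n)
      (h (z ^ 2)) := by
    intro z hz
    have h2 := tc_hasSum hh (hsq z hz)
    have hinj : Function.Injective (fun n : ℕ => 2 * n) := fun a b hab => by
      simp only at hab; omega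
    rw [← hinj.hasSum_iff]
    · refine hs_congr (fun n => ?_) h2
      simp [pow_mul]
    · intro n hn
      have : ¬ Even n := by
        intro he
        apply hn
        obtain ⟨m, hm⟩ := he
        exact ⟨m, by simp only; omega⟩
      simp [this]
  have h3 := coeff_unique (fun z hz => tc_hasSum hkd hz) h1 (2 * j)
  rw [h3]
  simp

/-- The area theorem in square root form. -/
theorem area_sqrt {h : ℂ → ℂ} (hh : DifferentiableOn ℂ h (ball 0 1))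
    (hne : ∀ z ∈ ball (0:ℂ) 1, h z ≠ 0) (h0 : h 0 = 1)
    (hinj : InjOn (fun z => z / (h z) ^ 2) (ball 0 1)) (N : ℕ) :
    ∑ j ∈ Finset.range N, (2 * (j:ℝ) + 1) * ‖tc h (j + 1)‖ ^ 2 ≤ 1 := by
  have hsq : ∀ z ∈ ball (0:ℂ) 1, z ^ 2 ∈ ball (0:ℂ) 1 := by
    intro z hz
    rw [mem_ball_zero_iff] at hz ⊢
    rw [norm_pow]
    exact pow_lt_one₀ (norm_nonneg _) hz (by norm_num)
  set k : ℂ → ℂ := fun z => h (z ^ 2) with hk
  have hkd : DifferentiableOn ℂ k (ball 0 1) := hh.comp (by fun_prop) hsq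
  have hk1 : deriv k 0 = 0 := by
    have h1 : HasDerivAt h (deriv h 0) ((0:ℂ) ^ 2) := by
      rw [show (0:ℂ) ^ 2 = 0 by ring]
      exact (hh.differentiableAt (isOpen_ball.mem_nhds (by simp))).hasDerivAt
    have h2 : HasDerivAt (fun z : ℂ => z ^ 2) (2 * 0) 0 := by
      simpa using hasDerivAt_pow 2 (0:ℂ)
    have h3 := h1.comp (0:ℂ) h2
    rw [show k = h ∘ (fun z : ℂ => z ^ 2) from rfl, h3.deriv]
    ring
  have hkinj : InjOn (fun z => z / k z) (ball 0 1) := by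
    intro z hz w hw hzw
    simp only [hk] at hzw
    have hz2 := hsq z hz
    have hw2 := hsq w hw
    have e1 : z ^ 2 = w ^ 2 := by
      refine hinj hz2 hw2 ?_
      simp only
      rw [← div_pow, ← div_pow, hzw]
    rw [e1] at hzw
    exact (div_left_inj' (hne _ hw2)).mp hzw
  have hA := area_theorem hkd (fun z hz => hne _ (hsq z hz)) (by simp [hk, h0]) hk1 hkinj (2 * N)
  refine le_trans ?_ hA
  have hinj2 : Function.Injective (fun n : ℕ => 2 * n) := fun a b hab => by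
    simp only at hab; omega
  have e : ∑ j ∈ Finset.range N, (2 * (j:ℝ) + 1) * ‖tc h (j + 1)‖ ^ 2
      = ∑ n ∈ (Finset.range N).image (fun n : ℕ => 2 * n),
        ((n:ℝ) + 1) * ‖tc k (n + 2)‖ ^ 2 := by
    rw [Finset.sum_image (fun a _ b _ hab => hinj2 hab)]
    refine Finset.sum_congr rfl (fun j _ => ?_)
    rw [show 2 * j + 2 = 2 * (j + 1) by ring, hk, tc_sq hh (j + 1)]
    push_cast
    ring
  rw [e]
  refine Finset.sum_le_sum_of_subset_of_nonneg ?_ (fun n _ _ => by positivity)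
  intro n hn
  simp only [Finset.mem_image, Finset.mem_range] at hn ⊢
  obtain ⟨m, hm, rfl⟩ := hn
  omega

end Pool.Agent.Helper94.Area
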