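import Pool.Agent.Helper94.Area.Lower2

open MeasureTheory Complex Metric Set Filter Topology

namespace Pool.Agent.Helper94.Area

/-- the real linear map w ↦ w - a conj w -/
noncomputable def Mmap (a : ℂ) : ℂ →ₗ[ℝ] ℂ where
  toFun w := w - a * (starRingEnd ℂ) w
  map_add' x y := by simp; ring
  map_smul' t x := by simp; ring

theorem Mmap_apply (a w : ℂ) : Mmap a w = w - a * (starRingEnd ℂ) w := rfl

theorem det_Mmap (a : ℂ) : LinearMap.det (Mmap a) = 1 - ‖a‖ ^ 2 := by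
  rw [← LinearMap.det_toMatrix Complex.basisOneI, Matrix.det_fin_two]
  simp only [LinearMap.toMatrix_apply, Mmap_apply]
  rw [← Complex.normSq_eq_norm_sq, Complex.normSq_apply]
  simp
  ring

theorem volume_Mmap {a : ℂ} (ha : ‖a‖ < 1) {R : ℝ} (hR : 0 ≤ R) :
    volume {w : ℂ | ‖Mmap a w‖ ≤ R} = ENNReal.ofReal (Real.pi * (R ^ 2 / (1 - ‖a‖ ^ 2))) := by
  have hpos : 0 < 1 - ‖a‖ ^ 2 := by nlinarith [norm_nonneg a]
  have h1 : {w : ℂ | ‖Mmap a w‖ ≤ R} = (Mmap a) ⁻¹' (closedBall 0 R) := by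
    ext w; simp
  rw [h1, Measure.addHaar_preimage_linearMap volume (by rw [det_Mmap]; exact hpos.ne'),
    Complex.volume_closedBall, det_Mmap, abs_of_pos (inv_pos.mpr hpos)]
  rw [← ENNReal.ofReal_pow hR, show ((NNReal.pi : NNReal) : ENNReal) = ENNReal.ofReal Real.pi from ?_,
    ← ENNReal.ofReal_mul (by positivity), ← ENNReal.ofReal_mul (by positivity)]
  · congr 1
    field_simp
  · rw [ENNReal.ofReal, ← NNReal.coe_real_pi, Real.toNNReal_coe]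

/-- third order Taylor remainder -/
theorem taylor_three {k : ℂ → ℂ} (hk : DifferentiableOn ℂ k (ball 0 1)) (h0 : k 0 = 1)
    (h1 : deriv k 0 = 0) : ∃ C : ℝ, 0 ≤ C ∧ ∀ z : ℂ, ‖z‖ ≤ 1 / 2 →
      ‖k z - 1 - tc k 2 * z ^ 2‖ ≤ C * ‖z‖ ^ 3 := by
  have hs : Summable (fun n => ‖tc k n * ((1/2 : ℝ):ℂ) ^ n‖) :=
    summable_norm_of_hasSum (fun z hz => tc_hasSum hk hz) (by norm_num) (by norm_num)
  refine ⟨8 * ∑' n, ‖tc k n * ((1/2 : ℝ):ℂ) ^ n‖, by positivity, fun z hz => ?_⟩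
  have hzb : z ∈ ball (0:ℂ) 1 := by
    rw [mem_ball_zero_iff]; linarith
  have h2 := tc_hasSum hk hzb
  have h3 := (hasSum_nat_add_iff' 3).mpr h2
  have h4 : ∑ i ∈ Finset.range 3, tc k i * z ^ i = 1 + tc k 2 * z ^ 2 := by
    rw [Finset.sum_range_succ, Finset.sum_range_succ, Finset.sum_range_one, tc_zero, tc_one, h0, h1]
    ring
  rw [h4] at h3
  rw [show k z - 1 - tc k 2 * z ^ 2 = k z - (1 + tc k 2 * z ^ 2) by ring, ← h3.tsum_eq]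
  have hs3 : Summable (fun n => ‖tc k (n + 3) * ((1/2 : ℝ):ℂ) ^ (n + 3)‖) :=
    (summable_nat_add_iff 3).mpr hs
  have hle : ∀ n, ‖tc k (n + 3) * z ^ (n + 3)‖
      ≤ 8 * ‖z‖ ^ 3 * ‖tc k (n + 3) * ((1/2 : ℝ):ℂ) ^ (n + 3)‖ := by
    intro n
    rw [norm_mul, norm_mul, norm_pow, norm_pow, Complex.norm_real, Real.norm_eq_abs,
      abs_of_pos (by norm_num : (0:ℝ) < 1/2), pow_add, pow_add]
    have : ‖z‖ ^ n ≤ (1/2:ℝ) ^ n := pow_le_pow_left₀ (norm_nonneg _) hz n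
    calc ‖tc k (n + 3)‖ * (‖z‖ ^ n * ‖z‖ ^ 3) ≤ ‖tc k (n + 3)‖ * ((1/2:ℝ) ^ n * ‖z‖ ^ 3) := by
          gcongr
      _ = _ := by ring
  have hs4 : Summable (fun n => 8 * ‖z‖ ^ 3 * ‖tc k (n + 3) * ((1/2 : ℝ):ℂ) ^ (n + 3)‖) :=
    hs3.mul_left _
  have hs5 : Summable (fun n => ‖tc k (n + 3) * z ^ (n + 3)‖) :=
    Summable.of_nonneg_of_le (fun _ => norm_nonneg _) hle hs4
  refine (norm_tsum_le_tsum_norm hs5).trans ?_
  refine (hs5.tsum_le_tsum hle hs4).trans ?_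
  rw [tsum_mul_left]
  have h6 : ∑' n, ‖tc k (n + 3) * ((1/2 : ℝ):ℂ) ^ (n + 3)‖ ≤ ∑' n, ‖tc k n * ((1/2 : ℝ):ℂ) ^ n‖ := by
    rw [← hs.sum_add_tsum_nat_add 3]
    have : 0 ≤ ∑ i ∈ Finset.range 3, ‖tc k i * ((1/2 : ℝ):ℂ) ^ i‖ :=
      Finset.sum_nonneg (fun _ _ => norm_nonneg _)
    linarith
  calc 8 * ‖z‖ ^ 3 * ∑' n, ‖tc k (n + 3) * ((1/2 : ℝ):ℂ) ^ (n + 3)‖
      ≤ 8 * ‖z‖ ^ 3 * ∑' n, ‖tc k n * ((1/2 : ℝ):ℂ) ^ n‖ := by gcongr
    _ = _ := by ring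

theorem image_subset {k : ℂ → ℂ} (hk : DifferentiableOn ℂ k (ball 0 1))
    (hne : ∀ z ∈ ball (0:ℂ) 1, k z ≠ 0) (h0 : k 0 = 1) (h1 : deriv k 0 = 0)
    (hinj : InjOn (fun z => z / k z) (ball 0 1)) :
    ∃ C : ℝ, 0 ≤ C ∧ ∀ ρ : ℝ, 0 < ρ → ρ < 1 / 2 →
      ((fun z => k z / z) '' {z : ℂ | ρ < ‖z‖ ∧ ‖z‖ < 1}) ⊆
        {w : ℂ | ‖Mmap (tc k 2 * ρ ^ 2) w‖ ≤ ρ⁻¹ + C * ρ ^ 2} := by
  obtain ⟨C0, hC0, hT⟩ := taylor_three hk h0 h1
  set b := tc k 2 with hb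
  refine ⟨C0 + ‖b‖ ^ 2 + ‖b‖ * C0, by positivity, fun ρ hρ hρ2 => ?_⟩
  set C := C0 + ‖b‖ ^ 2 + ‖b‖ * C0 with hC
  set R := ρ⁻¹ + C * ρ ^ 2 with hR
  have hRpos : 0 < R := by positivity
  -- the estimate on the circle
  have hcirc : ∀ z : ℂ, ‖z‖ = ρ → ‖Mmap (b * ρ ^ 2) (k z / z)‖ ≤ R := by
    intro z hz
    have hz0 : z ≠ 0 := by
      intro h; rw [h] at hz; simp at hz; linarith
    set e := (k z - 1 - b * z ^ 2) / z with he
    have hke : k z / z = 1 / z + b * z + e := by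
      rw [he]; field_simp; ring
    have hen : ‖e‖ ≤ C0 * ρ ^ 2 := by
      rw [he, norm_div, hz, div_le_iff₀ hρ]
      have := hT z (by linarith)
      rw [hz] at this
      linarith [this]
    have hconj : (ρ:ℂ) ^ 2 * (starRingEnd ℂ) (1 / z) = z := by
      have hzz : z * (starRingEnd ℂ) z = (ρ:ℂ) ^ 2 := by
        rw [Complex.mul_conj, Complex.normSq_eq_norm_sq, hz]; push_cast; ring
      rw [← hzz]
      have : (starRingEnd ℂ) z ≠ 0 := by simpa using hz0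
      rw [map_div₀, map_one]
      field_simp
    have hexp : Mmap (b * ρ ^ 2) (k z / z)
        = 1 / z + e - b * (ρ:ℂ) ^ 2 * (starRingEnd ℂ) (b * z)
          - b * (ρ:ℂ) ^ 2 * (starRingEnd ℂ) e := by
      rw [Mmap_apply, hke, map_add, map_add]
      linear_combination (-b) * hconj
    rw [hexp]
    have hρn : ‖(ρ:ℂ)‖ = ρ := by rw [Complex.norm_real]; exact abs_of_pos hρ
    have e1 : ‖1 / z‖ = ρ⁻¹ := by rw [norm_div, hz, norm_one, one_div]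
    have e2 : ‖b * (ρ:ℂ) ^ 2 * (starRingEnd ℂ) (b * z)‖ = ‖b‖ ^ 2 * ρ ^ 3 := by
      rw [norm_mul, norm_mul, norm_pow, hρn, RCLike.norm_conj, norm_mul, hz]; ring
    have e3 : ‖b * (ρ:ℂ) ^ 2 * (starRingEnd ℂ) e‖ ≤ ‖b‖ * ρ ^ 2 * (C0 * ρ ^ 2) := by
      rw [norm_mul, norm_mul, norm_pow, hρn, RCLike.norm_conj]
      gcongr
    have t1 := norm_sub_le (1 / z + e - b * (ρ:ℂ) ^ 2 * (starRingEnd ℂ) (b * z))
      (b * (ρ:ℂ) ^ 2 * (starRingEnd ℂ) e)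
    have t2 := norm_sub_le (1 / z + e) (b * (ρ:ℂ) ^ 2 * (starRingEnd ℂ) (b * z))
    have t3 := norm_add_le (1 / z) e
    have hρ1 : ρ ≤ 1 := by linarith
    have s1 : ‖b‖ ^ 2 * ρ ^ 3 ≤ ‖b‖ ^ 2 * ρ ^ 2 := by
      gcongr ‖b‖ ^ 2 * ?_
      exact pow_le_pow_of_le_one hρ.le hρ1 (by norm_num)
    have s2 : ‖b‖ * ρ ^ 2 * (C0 * ρ ^ 2) ≤ ‖b‖ * C0 * ρ ^ 2 := by
      have : ρ ^ 2 ≤ 1 := pow_le_one₀ hρ.le hρ1
      calc ‖b‖ * ρ ^ 2 * (C0 * ρ ^ 2) = (‖b‖ * C0 * ρ ^ 2) * ρ ^ 2 := by ring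
        _ ≤ (‖b‖ * C0 * ρ ^ 2) * 1 := by gcongr
        _ = _ := by ring
    rw [hR, hC]
    nlinarith
  -- the star-shaped set
  set W : Set ℂ := {ξ : ℂ | ξ = 0 ∨ R * ‖ξ‖ ^ 2 < ‖(starRingEnd ℂ) ξ - b * ρ ^ 2 * ξ‖} with hW
  have hMW : ∀ w : ℂ, w ≠ 0 → R < ‖Mmap (b * ρ ^ 2) w‖ → w⁻¹ ∈ W := by
    intro w hw hRw
    right
    have hcw : (starRingEnd ℂ) w ≠ 0 := by simpa using hw
    have h2 : (starRingEnd ℂ) w⁻¹ - b * ρ ^ 2 * w⁻¹
        = (w - b * ρ ^ 2 * (starRingEnd ℂ) w) * (w⁻¹ * ((starRingEnd ℂ) w)⁻¹) := by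
      rw [map_inv₀]
      field_simp
    rw [h2, norm_mul, norm_mul, norm_inv, norm_inv, RCLike.norm_conj, ← Mmap_apply]
    have hwn : 0 < ‖w‖ := norm_pos_iff.mpr hw
    have : R * ‖w‖⁻¹ ^ 2 < ‖Mmap (b * ρ ^ 2) w‖ * ‖w‖⁻¹ ^ 2 :=
      mul_lt_mul_of_pos_right hRw (by positivity)
    calc R * ‖w‖⁻¹ ^ 2 < ‖Mmap (b * ρ ^ 2) w‖ * ‖w‖⁻¹ ^ 2 := this
      _ = _ := by ring
  have hWM : ∀ w : ℂ, w ≠ 0 → w⁻¹ ∈ W → R < ‖Mmap (b * ρ ^ 2) w‖ := by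
    intro w hw hRw
    rcases hRw with h | h
    · exact absurd (inv_eq_zero.mp h) hw
    have hcw : (starRingEnd ℂ) w ≠ 0 := by simpa using hw
    have h2 : (starRingEnd ℂ) w⁻¹ - b * ρ ^ 2 * w⁻¹
        = (w - b * ρ ^ 2 * (starRingEnd ℂ) w) * (w⁻¹ * ((starRingEnd ℂ) w)⁻¹) := by
      rw [map_inv₀]
      field_simp
    rw [h2, norm_mul, norm_mul, norm_inv, norm_inv, RCLike.norm_conj, ← Mmap_apply] at h
    have hwn : 0 < ‖w‖ := norm_pos_iff.mpr hw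
    have h3 : R * (‖w‖⁻¹ ^ 2) < ‖Mmap (b * ρ ^ 2) w‖ * ‖w‖⁻¹ ^ 2 := by
      calc R * ‖w‖⁻¹ ^ 2 < _ := h
        _ = _ := by ring
    exact lt_of_mul_lt_mul_right h3 (by positivity)
  have hstar : StarConvex ℝ 0 W := by
    rw [starConvex_zero_iff]
    intro ξ hξ t ht0 ht1
    rcases eq_or_lt_of_le ht0 with h | ht
    · left; rw [← h]; simp
    rcases hξ with h | h
    · left; rw [h]; simp
    right
    have h2 : (starRingEnd ℂ) (t • ξ) - b * ρ ^ 2 * (t • ξ)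
        = (t:ℂ) * ((starRingEnd ℂ) ξ - b * ρ ^ 2 * ξ) := by
      rw [Complex.real_smul, map_mul, Complex.conj_ofReal]; ring
    rw [h2, norm_mul, Complex.norm_real, Real.norm_eq_abs, abs_of_pos ht, norm_smul,
      Real.norm_eq_abs, abs_of_pos ht]
    calc R * (t * ‖ξ‖) ^ 2 = (t * t) * (R * ‖ξ‖ ^ 2) := by ring
      _ ≤ (t * 1) * (R * ‖ξ‖ ^ 2) := by gcongr
      _ = t * (R * ‖ξ‖ ^ 2) := by ring
      _ < t * ‖(starRingEnd ℂ) ξ - b * ρ ^ 2 * ξ‖ := by gcongr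
  have hWpre : IsPreconnected W := by
    have h0W : (0:ℂ) ∈ W := Or.inl rfl
    exact (hstar.isPathConnected h0W).isConnected.isPreconnected
  -- φ and openness
  set φ : ℂ → ℂ := fun z => z / k z with hφ
  have hφd : DifferentiableOn ℂ φ (ball 0 1) := differentiableOn_id.div hk hne
  have hφa : AnalyticOnNhd ℂ φ (ball 0 1) := hφd.analyticOnNhd isOpen_ball
  have hsub : ball (0:ℂ) ρ ⊆ ball 0 1 := ball_subset_ball (by linarith)
  have hopen : IsOpen (φ '' ball 0 ρ) := by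
    rcases hφa.is_constant_or_isOpen (convex_ball (0:ℂ) 1).isPreconnected with h | h
    · exfalso
      obtain ⟨w, hw⟩ := h
      have e1 := hw 0 (by simp)
      have e2 := hw (1/2) (by simp; norm_num)
      have := hinj (show (0:ℂ) ∈ ball 0 1 by simp) (show (1/2:ℂ) ∈ ball 0 1 by simp; norm_num)
        (e1.trans e2.symm)
      norm_num at this
    · exact h _ hsub isOpen_ball
  have hsubc : closedBall (0:ℂ) ρ ⊆ ball 0 1 := closedBall_subset_ball (by linarith)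
  have hcpt : IsClosed (φ '' closedBall 0 ρ) :=
    ((isCompact_closedBall (0:ℂ) ρ).image_of_continuousOn
      (hφd.continuousOn.mono hsubc)).isClosed
  have hWsub : W ⊆ φ '' ball 0 ρ := by
    refine hWpre.subset_of_closure_inter_subset hopen ?_ ?_
    · refine ⟨0, Or.inl rfl, 0, by simp [hρ], by simp [hφ]⟩
    · rintro ξ ⟨h1ξ, h2ξ⟩
      have h3 : ξ ∈ φ '' closedBall 0 ρ :=
        (closure_minimal (image_mono ball_subset_closedBall) hcpt) h1ξ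
      obtain ⟨z, hz, rfl⟩ := h3
      rw [mem_closedBall_zero_iff] at hz
      rcases lt_or_eq_of_le hz with h | h
      · exact ⟨z, by simpa using h, rfl⟩
      · exfalso
        have hz0 : z ≠ 0 := by
          intro h'; rw [h'] at h; simp at h; linarith
        have hzb : z ∈ ball (0:ℂ) 1 := hsubc (by simp [h])
        have hkz := hne z hzb
        have hw : k z / z ≠ 0 := div_ne_zero hkz hz0
        have h4 := hcirc z h
        have h5 := hWM (k z / z) hw (by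
          have : (k z / z)⁻¹ = φ z := by simp [hφ]
          rw [this]; exact h2ξ)
        linarith
  -- conclusion
  rintro w ⟨z, ⟨hz1, hz2⟩, rfl⟩
  rw [Set.mem_ofPred_eq]
  by_contra hcon
  push Not at hcon
  have hz0 : z ≠ 0 := by
    intro h; rw [h] at hz1; simp at hz1; linarith
  have hzb : z ∈ ball (0:ℂ) 1 := by simpa using hz2
  have hkz := hne z hzb
  have hw : k z / z ≠ 0 := div_ne_zero hkz hz0
  have h4 := hMW (k z / z) hw hcon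
  obtain ⟨z', hz', he⟩ := hWsub h4
  have h5 : φ z' = φ z := by
    rw [he]; simp [hφ]
  have h6 := hinj (hsub hz') hzb h5
  rw [h6] at hz'
  rw [mem_ball_zero_iff] at hz'
  linarith

end Pool.Agent.Helper94.Area
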